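import Pool.Agent.MaxTerm59.Final

/-!
# Maximum term versus maximum modulus

For every transcendental entire function `f` the lower limit of `μ(r) / M(r)` as `r → ∞` is at
most `61 / 100`.
-/

namespace Pool.Agent.MaxTerm59.Kept.UpperBound061

open Filter Pool.Agent.MaxTerm59

/-- `liminf μ(r)/M(r) ≤ 0.61` for every transcendental entire function. -/
theorem result (f : ℂ → ℂ) (hf : TransEntire f) :
    liminf (fun r : ℝ => maxTerm f r / maxMod f r) atTop ≤ 61 / 100 :=
  liminf_le f hf

end Pool.Agent.MaxTerm59.Kept.UpperBound061
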